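import Mathlib

/-! Analytic part of the proof of Erdős's inequality `(m+1)^n < 1^n + ... + m^n`. -/

namespace Q272.Erd

open Real Finset

/-- `exp (-z) ≥ 1 - z + z^2/2 - z^3/6` for `z ≥ 0`. -/
theorem exp_neg_ge {z : ℝ} (hz : 0 ≤ z) : 1 - z + z ^ 2 / 2 - z ^ 3 / 6 ≤ exp (-z) := by
  have hF : ∀ x : ℝ, HasDerivAt (fun x : ℝ => exp x * (1 - x + x ^ 2 / 2 - x ^ 3 / 6))
      (-(exp x * (x ^ 3 / 6))) x := by
    intro x
    have h1 : HasDerivAt (fun x : ℝ => (1 - x + x ^ 2 / 2 - x ^ 3 / 6))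
        (0 - 1 + (2 * x) / 2 - (3 * x ^ 2) / 6) x := by
      have a := (hasDerivAt_const x (1 : ℝ)).fun_sub (hasDerivAt_id' x)
      have b := ((hasDerivAt_pow 2 x).div_const 2)
      have c := ((hasDerivAt_pow 3 x).div_const 6)
      have := (a.fun_add b).fun_sub c
      simpa using this
    have h2 := (Real.hasDerivAt_exp x).fun_mul h1
    refine h2.congr_deriv ?_
    ring
  have hanti : AntitoneOn (fun x : ℝ => exp x * (1 - x + x ^ 2 / 2 - x ^ 3 / 6)) (Set.Ici 0) := by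
    apply antitoneOn_of_deriv_nonpos (convex_Ici 0)
    · exact fun x _ => (hF x).continuousAt.continuousWithinAt
    · exact fun x _ => (hF x).differentiableAt.differentiableWithinAt
    · intro x hx
      rw [interior_Ici] at hx
      rw [(hF x).deriv]
      have hx0 : 0 < x := hx
      have h3 : 0 ≤ exp x * (x ^ 3 / 6) := by positivity
      linarith
  have h := hanti (Set.mem_Ici.mpr (le_refl 0)) (Set.mem_Ici.mpr hz) hz
  simp only [exp_zero] at h
  have h4 : exp z * (1 - z + z ^ 2 / 2 - z ^ 3 / 6) ≤ 1 := by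
    calc _ ≤ _ := h
      _ = 1 := by norm_num
  have h5 : exp (-z) * exp z = 1 := by rw [← exp_add]; simp
  have h6 := exp_pos (-z)
  calc 1 - z + z ^ 2 / 2 - z ^ 3 / 6
      = exp (-z) * (exp z * (1 - z + z ^ 2 / 2 - z ^ 3 / 6)) := by
        rw [← mul_assoc, h5, one_mul]
    _ ≤ exp (-z) * 1 := mul_le_mul_of_nonneg_left h4 h6.le
    _ = exp (-z) := mul_one _

/-- `exp (-z) ≤ 1 - z + z^2/2` for `z ≥ 0`. -/
theorem exp_neg_le {z : ℝ} (hz : 0 ≤ z) : exp (-z) ≤ 1 - z + z ^ 2 / 2 := by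
  have hF : ∀ x : ℝ, HasDerivAt (fun x : ℝ => exp x * (1 - x + x ^ 2 / 2))
      (exp x * (x ^ 2 / 2)) x := by
    intro x
    have h1 : HasDerivAt (fun x : ℝ => (1 - x + x ^ 2 / 2))
        (0 - 1 + (2 * x) / 2) x := by
      have a := (hasDerivAt_const x (1 : ℝ)).fun_sub (hasDerivAt_id' x)
      have b := ((hasDerivAt_pow 2 x).div_const 2)
      have := (a.fun_add b)
      simpa using this
    have h2 := (Real.hasDerivAt_exp x).fun_mul h1
    refine h2.congr_deriv ?_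
    ring
  have hmono : MonotoneOn (fun x : ℝ => exp x * (1 - x + x ^ 2 / 2)) (Set.Ici 0) := by
    apply monotoneOn_of_deriv_nonneg (convex_Ici 0)
    · exact fun x _ => (hF x).continuousAt.continuousWithinAt
    · exact fun x _ => (hF x).differentiableAt.differentiableWithinAt
    · intro x hx
      rw [(hF x).deriv]
      positivity
  have h := hmono (Set.mem_Ici.mpr (le_refl 0)) (Set.mem_Ici.mpr hz) hz
  simp only [exp_zero] at h
  have h4 : 1 ≤ exp z * (1 - z + z ^ 2 / 2) := by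
    calc (1 : ℝ) = _ := by norm_num
      _ ≤ _ := h
  have h5 : exp (-z) * exp z = 1 := by rw [← exp_add]; simp
  have h6 := exp_pos (-z)
  calc exp (-z) = exp (-z) * 1 := (mul_one _).symm
    _ ≤ exp (-z) * (exp z * (1 - z + z ^ 2 / 2)) := mul_le_mul_of_nonneg_left h4 h6.le
    _ = 1 - z + z ^ 2 / 2 := by rw [← mul_assoc, h5, one_mul]

/-- Lower bound for `-log (1-s)`. -/
theorem neg_log_ge {s : ℝ} (h0 : 0 ≤ s) (h1 : s < 1) :
    s + s ^ 2 / 2 + s ^ 3 / 3 + s ^ 4 / 4 ≤ -log (1 - s) := by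
  have h := Real.hasSum_pow_div_log_of_abs_lt_one (x := s) (by rwa [abs_of_nonneg h0])
  have h2 := sum_le_hasSum (Finset.range 4) (fun i _ => by positivity) h
  simp only [Finset.sum_range_succ, Finset.sum_range_zero] at h2
  norm_num at h2
  linarith

/-- Upper bound for `log (1+s)`. -/
theorem log_one_add_le {s : ℝ} (h0 : 0 ≤ s) (h1 : s ≤ 1 / 10) :
    log (1 + s) ≤ s - s ^ 2 / 2 + s ^ 3 / 3 := by
  have h := Real.abs_log_sub_add_sum_range_le (x := -s) (by rw [abs_neg, abs_of_nonneg h0]; linarith) 4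
  rw [abs_le] at h
  have h2 := h.2
  simp only [Finset.sum_range_succ, Finset.sum_range_zero, abs_neg, abs_of_nonneg h0] at h2
  norm_num at h2
  have h3 : s ^ 5 / (1 - s) ≤ s ^ 4 / 4 := by
    rw [div_le_div_iff₀ (by linarith) (by norm_num)]
    have : 0 ≤ s ^ 4 := by positivity
    nlinarith
  linarith

/-- Upper bound for `-log (1-w)`, `0 ≤ w ≤ 1/4`. -/
theorem neg_log_le {w : ℝ} (h0 : 0 ≤ w) (h1 : w ≤ 1 / 4) :
    -log (1 - w) ≤ w + w ^ 2 / 2 + w ^ 3 / 3 + 2 / 5 * w ^ 4 := by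
  have h := Real.abs_log_sub_add_sum_range_le (x := w) (by rw [abs_of_nonneg h0]; linarith) 5
  rw [abs_le] at h
  have h2 := h.1
  simp only [Finset.sum_range_succ, Finset.sum_range_zero, abs_of_nonneg h0] at h2
  norm_num at h2
  have h3 : w ^ 6 / (1 - w) ≤ w ^ 4 / 12 := by
    rw [div_le_div_iff₀ (by linarith) (by norm_num)]
    have h4 : 0 ≤ w ^ 4 := by positivity
    have h5 : w ^ 2 * 12 ≤ 1 - w := by nlinarith
    calc w ^ 6 * 12 = w ^ 4 * (w ^ 2 * 12) := by ring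
      _ ≤ w ^ 4 * (1 - w) := mul_le_mul_of_nonneg_left h5 h4
  have h6 : w ^ 5 / 5 ≤ w ^ 4 / 20 := by
    have : 0 ≤ w ^ 4 := by positivity
    nlinarith
  have h7 : 0 ≤ w ^ 4 := by positivity
  linarith

end Q272.Erd
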