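import Mathlib

/-! The cases `m < 240`. -/

namespace Q272.Erd

/-- The test for one pair. -/
def ok (m n : ℕ) : Bool :=
  !(decide (m ^ n < 2 * (m - 1) ^ n) && decide (2 * (m - 2) ^ n < (m - 1) ^ n)) ||
    decide ((m + 1) ^ n < ((List.range m).map (fun i => (i + 1) ^ n)).sum)

/-- The test for all pairs `n < m < 240`. -/
def okAll : Bool := (List.range 240).all fun m => (List.range m).all fun n => ok m n

theorem okAll_true : okAll = true := by decide +kernel

theorem ok_of_lt {m n : ℕ} (hm : m < 240) (hn : n < m) : ok m n = true := by
  have h := okAll_true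
  unfold okAll at h
  rw [List.all_eq_true] at h
  have h1 := h m (List.mem_range.mpr hm)
  rw [List.all_eq_true] at h1
  exact h1 n (List.mem_range.mpr hn)

end Q272.Erd
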