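import Mathlib

/-! Moment sums `∑ i^k / 2^i`. -/

namespace Q272.Erd

open Finset

theorem mom0 (I : ℕ) : ∑ i ∈ range (I + 1), (1 : ℝ) / 2 ^ i = 2 - 1 / 2 ^ I := by
  induction I with
  | zero => norm_num
  | succ I ih => rw [sum_range_succ, ih]; field_simp; ring

theorem mom1 (I : ℕ) : ∑ i ∈ range (I + 1), (i : ℝ) / 2 ^ i = 2 - ((I : ℝ) + 2) / 2 ^ I := by
  induction I with
  | zero => norm_num
  | succ I ih => rw [sum_range_succ, ih]; push_cast; field_simp; ring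

theorem mom2 (I : ℕ) : ∑ i ∈ range (I + 1), (i : ℝ) ^ 2 / 2 ^ i
    = 6 - ((I : ℝ) ^ 2 + 4 * I + 6) / 2 ^ I := by
  induction I with
  | zero => norm_num
  | succ I ih => rw [sum_range_succ, ih]; push_cast; field_simp; ring

theorem mom3 (I : ℕ) : ∑ i ∈ range (I + 1), (i : ℝ) ^ 3 / 2 ^ i
    = 26 - ((I : ℝ) ^ 3 + 6 * I ^ 2 + 18 * I + 26) / 2 ^ I := by
  induction I with
  | zero => norm_num
  | succ I ih => rw [sum_range_succ, ih]; push_cast; field_simp; ring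

theorem mom4 (I : ℕ) : ∑ i ∈ range (I + 1), (i : ℝ) ^ 4 / 2 ^ i
    = 150 - ((I : ℝ) ^ 4 + 8 * I ^ 3 + 36 * I ^ 2 + 104 * I + 150) / 2 ^ I := by
  induction I with
  | zero => norm_num
  | succ I ih => rw [sum_range_succ, ih]; push_cast; field_simp; ring

theorem mom5 (I : ℕ) : ∑ i ∈ range (I + 1), (i : ℝ) ^ 5 / 2 ^ i
    = 1082 - ((I : ℝ) ^ 5 + 10 * I ^ 4 + 60 * I ^ 3 + 260 * I ^ 2 + 750 * I + 1082) / 2 ^ I := by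
  induction I with
  | zero => norm_num
  | succ I ih => rw [sum_range_succ, ih]; push_cast; field_simp; ring

theorem mom6 (I : ℕ) : ∑ i ∈ range (I + 1), (i : ℝ) ^ 6 / 2 ^ i
    = 9366 - ((I : ℝ) ^ 6 + 12 * I ^ 5 + 90 * I ^ 4 + 520 * I ^ 3 + 2250 * I ^ 2 + 6492 * I
      + 9366) / 2 ^ I := by
  induction I with
  | zero => norm_num
  | succ I ih => rw [sum_range_succ, ih]; push_cast; field_simp; ring

theorem mom7 (I : ℕ) : ∑ i ∈ range (I + 1), (i : ℝ) ^ 7 / 2 ^ i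
    = 94586 - ((I : ℝ) ^ 7 + 14 * I ^ 6 + 126 * I ^ 5 + 910 * I ^ 4 + 5250 * I ^ 3 + 22722 * I ^ 2
      + 65562 * I + 94586) / 2 ^ I := by
  induction I with
  | zero => norm_num
  | succ I ih => rw [sum_range_succ, ih]; push_cast; field_simp; ring

/-- The truncated lower bound for the `i`-th term times `2^i`. -/
noncomputable def pol (s L i : ℝ) : ℝ :=
  1 - L * (s * ((i ^ 2 - i) / 2) + s ^ 2 * (i ^ 3 / 3 - i ^ 2 / 4 - i / 12) + s ^ 3 * (2 / 5 * i ^ 4))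
    + L ^ 2 / 2 * (s ^ 2 * ((i ^ 2 - i) / 2) ^ 2
      + 2 * s ^ 3 * ((i ^ 2 - i) / 2) * (i ^ 3 / 3 - i ^ 2 / 4 - i / 12))
    - L ^ 3 / 6 * (s ^ 3 * ((i ^ 2 - i) / 2) ^ 3 + s ^ 4 * (41 / 100 * i ^ 7))

theorem sum_pol (s L : ℝ) (I : ℕ) :
    ∑ i ∈ range (I + 1), pol s L i / 2 ^ i =
      2 - 2 * L * s - 7 * L * s ^ 2 + 13 * L ^ 2 * s ^ 2
        + (-60 * L + 139 * L ^ 2 - 818 / 6 * L ^ 3) * s ^ 3
        - L ^ 3 / 6 * (41 / 100) * 94586 * s ^ 4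
      - (1 - L * (s * (((I : ℝ) ^ 2 + 3 * I + 4) / 2)
            + s ^ 2 * (((I : ℝ) ^ 3 + 6 * I ^ 2 + 18 * I + 26) / 3 - (I ^ 2 + 4 * I + 6) / 4
              - (I + 2) / 12)
            + s ^ 3 * (2 / 5 * ((I : ℝ) ^ 4 + 8 * I ^ 3 + 36 * I ^ 2 + 104 * I + 150)))
          + L ^ 2 / 2 * (s ^ 2 * (((I : ℝ) ^ 4 + 8 * I ^ 3 + 36 * I ^ 2 + 104 * I + 150)
                - 2 * (I ^ 3 + 6 * I ^ 2 + 18 * I + 26) + (I ^ 2 + 4 * I + 6)) / 4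
            + 2 * s ^ 3 * ((4 * ((I : ℝ) ^ 5 + 10 * I ^ 4 + 60 * I ^ 3 + 260 * I ^ 2 + 750 * I
                + 1082) - 7 * (I ^ 4 + 8 * I ^ 3 + 36 * I ^ 2 + 104 * I + 150)
                + 2 * (I ^ 3 + 6 * I ^ 2 + 18 * I + 26) + (I ^ 2 + 4 * I + 6)) / 24))
          - L ^ 3 / 6 * (s ^ 3 * ((((I : ℝ) ^ 6 + 12 * I ^ 5 + 90 * I ^ 4 + 520 * I ^ 3
                + 2250 * I ^ 2 + 6492 * I + 9366)
                - 3 * (I ^ 5 + 10 * I ^ 4 + 60 * I ^ 3 + 260 * I ^ 2 + 750 * I + 1082)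
                + 3 * (I ^ 4 + 8 * I ^ 3 + 36 * I ^ 2 + 104 * I + 150)
                - (I ^ 3 + 6 * I ^ 2 + 18 * I + 26)) / 8)
            + s ^ 4 * (41 / 100 * ((I : ℝ) ^ 7 + 14 * I ^ 6 + 126 * I ^ 5 + 910 * I ^ 4
              + 5250 * I ^ 3 + 22722 * I ^ 2 + 65562 * I + 94586)))) / 2 ^ I := by
  have key : ∀ i : ℕ, pol s L i / 2 ^ i =
      1 * (1 / 2 ^ i)
      + (L * s / 2 + L * s ^ 2 / 12) * ((i : ℝ) / 2 ^ i)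
      + (- L * s / 2 + L * s ^ 2 / 4 + L ^ 2 / 2 * s ^ 2 / 4 + L ^ 2 * s ^ 3 / 24)
          * ((i : ℝ) ^ 2 / 2 ^ i)
      + (- L * s ^ 2 / 3 - L ^ 2 / 2 * s ^ 2 / 2 + L ^ 2 * s ^ 3 / 12 + L ^ 3 / 6 * s ^ 3 / 8)
          * ((i : ℝ) ^ 3 / 2 ^ i)
      + (- 2 / 5 * L * s ^ 3 + L ^ 2 / 2 * s ^ 2 / 4 - 7 * L ^ 2 * s ^ 3 / 24
          - 3 * (L ^ 3 / 6) * s ^ 3 / 8) * ((i : ℝ) ^ 4 / 2 ^ i)
      + (L ^ 2 * s ^ 3 / 6 + 3 * (L ^ 3 / 6) * s ^ 3 / 8) * ((i : ℝ) ^ 5 / 2 ^ i)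
      + (- (L ^ 3 / 6) * s ^ 3 / 8) * ((i : ℝ) ^ 6 / 2 ^ i)
      + (- (L ^ 3 / 6) * s ^ 4 * (41 / 100)) * ((i : ℝ) ^ 7 / 2 ^ i) := by
    intro i
    unfold pol
    ring
  rw [sum_congr rfl (fun i _ => key i)]
  simp only [sum_add_distrib, ← mul_sum]
  rw [mom0, mom1, mom2, mom3, mom4, mom5, mom6, mom7]
  ring

end Q272.Erd
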