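import Mathlib
import Pool.Agent.Q272.Erd.Analytic
import Pool.Agent.Q272.Erd.Moments

/-! Erdős's inequality `(m+1)^n < 1^n + ... + m^n`, `m ≥ 240`. -/

namespace Q272.Erd

open Real Finset

/-- The correction `W`. -/
noncomputable def W (s i : ℝ) : ℝ :=
  s * ((i ^ 2 - i) / 2) + s ^ 2 * (i ^ 3 / 3 - i ^ 2 / 4 - i / 12) + s ^ 3 * (2 / 5 * i ^ 4)

theorem A_nonneg (i : ℕ) : 0 ≤ ((i : ℝ) ^ 2 - i) / 2 := by
  rcases i with _ | i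
  · simp
  · push_cast; nlinarith [(Nat.cast_nonneg i : (0:ℝ) ≤ i)]

theorem B_nonneg (i : ℕ) : 0 ≤ (i : ℝ) ^ 3 / 3 - (i : ℝ) ^ 2 / 4 - (i : ℝ) / 12 := by
  rcases i with _ | i
  · simp
  · have hi : (0:ℝ) ≤ i := Nat.cast_nonneg i
    push_cast
    have : 0 ≤ (i : ℝ) * ((i : ℝ) + 1) * (4 * i + 5) / 12 := by positivity
    nlinarith

theorem W_nonneg {s : ℝ} (hs : 0 ≤ s) (i : ℕ) : 0 ≤ W s i := by
  unfold W
  have h1 := A_nonneg i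
  have h2 := B_nonneg i
  positivity

theorem pol_le_exp {s L : ℝ} (hs : 0 ≤ s) (hL : 0 ≤ L) (i : ℕ) (hi : (i : ℝ) * s ≤ 1 / 4) :
    pol s L i ≤ exp (-(L * W s i)) := by
  have hW := W_nonneg hs i
  refine le_trans ?_ (exp_neg_ge (mul_nonneg hL hW))
  have hA := A_nonneg i
  have hB := B_nonneg i
  have hi0 : (0:ℝ) ≤ i := Nat.cast_nonneg i
  set A : ℝ := ((i : ℝ) ^ 2 - i) / 2 with hAdef
  set B : ℝ := (i : ℝ) ^ 3 / 3 - (i : ℝ) ^ 2 / 4 - (i : ℝ) / 12 with hBdef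
  have hC : (0:ℝ) ≤ 2 / 5 * (i : ℝ) ^ 4 := by positivity
  set C : ℝ := 2 / 5 * (i : ℝ) ^ 4 with hCdef
  have hWe : W s i = s * A + (s ^ 2 * B + s ^ 3 * C) := by
    unfold W; rw [hAdef, hBdef, hCdef]; ring
  -- square
  have hsq : s ^ 2 * A ^ 2 + 2 * s ^ 3 * A * B ≤ (W s i) ^ 2 := by
    rw [hWe]
    have e : (s * A + (s ^ 2 * B + s ^ 3 * C)) ^ 2 = s ^ 2 * A ^ 2 + 2 * s ^ 3 * A * B
        + (2 * s ^ 4 * A * C + (s ^ 2 * B + s ^ 3 * C) ^ 2) := by ring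
    have h : 0 ≤ 2 * s ^ 4 * A * C + (s ^ 2 * B + s ^ 3 * C) ^ 2 := by positivity
    linarith
  -- cube
  have hAle : A ≤ (i : ℝ) ^ 2 / 2 := by rw [hAdef]; linarith
  have hBle : B ≤ (i : ℝ) ^ 3 / 3 := by
    rw [hBdef]; have : 0 ≤ (i : ℝ) ^ 2 / 4 := by positivity
    linarith
  have hR0 : 0 ≤ s ^ 2 * B + s ^ 3 * C := by positivity
  have hR1 : s ^ 2 * B + s ^ 3 * C ≤ 13 / 30 * (s ^ 2 * (i : ℝ) ^ 3) := by
    have h1 : s ^ 2 * B ≤ s ^ 2 * ((i : ℝ) ^ 3 / 3) := mul_le_mul_of_nonneg_left hBle (by positivity)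
    have h2 : s ^ 3 * C = 2 / 5 * (s ^ 2 * (i : ℝ) ^ 3) * ((i : ℝ) * s) := by rw [hCdef]; ring
    have h3 : 2 / 5 * (s ^ 2 * (i : ℝ) ^ 3) * ((i : ℝ) * s) ≤ 2 / 5 * (s ^ 2 * (i : ℝ) ^ 3) * (1 / 4) :=
      mul_le_mul_of_nonneg_left hi (by positivity)
    linarith
  have ha0 : 0 ≤ s * A := by positivity
  have ha1 : s * A ≤ s * (i : ℝ) ^ 2 / 2 := by
    have := mul_le_mul_of_nonneg_left hAle hs
    linarith
  have hR2 : s ^ 2 * B + s ^ 3 * C ≤ 13 / 120 * (s * (i : ℝ) ^ 2) := by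
    have h1 : 13 / 30 * (s ^ 2 * (i : ℝ) ^ 3) = 13 / 30 * (s * (i : ℝ) ^ 2) * ((i : ℝ) * s) := by ring
    have h2 : 13 / 30 * (s * (i : ℝ) ^ 2) * ((i : ℝ) * s) ≤ 13 / 30 * (s * (i : ℝ) ^ 2) * (1 / 4) :=
      mul_le_mul_of_nonneg_left hi (by positivity)
    linarith
  have hcube : (W s i) ^ 3 ≤ s ^ 3 * A ^ 3 + s ^ 4 * (41 / 100 * (i : ℝ) ^ 7) := by
    rw [hWe]
    set R := s ^ 2 * B + s ^ 3 * C
    set a := s * A
    have e : (a + R) ^ 3 = a ^ 3 + R * (3 * a ^ 2 + 3 * a * R + R ^ 2) := by ring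
    have hu : 0 ≤ s * (i : ℝ) ^ 2 := by positivity
    have h1 : a ^ 2 ≤ (s * (i : ℝ) ^ 2 / 2) ^ 2 := pow_le_pow_left₀ ha0 ha1 2
    have h2 : a * R ≤ (s * (i : ℝ) ^ 2 / 2) * (13 / 120 * (s * (i : ℝ) ^ 2)) :=
      mul_le_mul ha1 hR2 hR0 (by positivity)
    have h3 : R ^ 2 ≤ (13 / 120 * (s * (i : ℝ) ^ 2)) ^ 2 := pow_le_pow_left₀ hR0 hR2 2
    have h4 : 3 * a ^ 2 + 3 * a * R + R ^ 2 ≤ 925 / 1000 * (s * (i : ℝ) ^ 2) ^ 2 := by
      nlinarith [sq_nonneg (s * (i : ℝ) ^ 2)]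
    have h5 : 0 ≤ 3 * a ^ 2 + 3 * a * R + R ^ 2 := by positivity
    have h6 : R * (3 * a ^ 2 + 3 * a * R + R ^ 2)
        ≤ (13 / 30 * (s ^ 2 * (i : ℝ) ^ 3)) * (925 / 1000 * (s * (i : ℝ) ^ 2) ^ 2) :=
      mul_le_mul hR1 h4 h5 (by positivity)
    have h7 : (13 / 30 * (s ^ 2 * (i : ℝ) ^ 3)) * (925 / 1000 * (s * (i : ℝ) ^ 2) ^ 2)
        = (13 / 30 * (925 / 1000)) * (s ^ 4 * (i : ℝ) ^ 7) := by ring
    have h8 : 0 ≤ s ^ 4 * (i : ℝ) ^ 7 := by positivity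
    have h9 : (13 / 30 * (925 / 1000)) * (s ^ 4 * (i : ℝ) ^ 7) ≤ 41 / 100 * (s ^ 4 * (i : ℝ) ^ 7) :=
      mul_le_mul_of_nonneg_right (by norm_num) h8
    rw [e]
    have e2 : s ^ 3 * A ^ 3 = a ^ 3 := by simp only [a]; ring
    rw [e2]
    have e3 : s ^ 4 * (41 / 100 * (i : ℝ) ^ 7) = 41 / 100 * (s ^ 4 * (i : ℝ) ^ 7) := by ring
    rw [e3]
    linarith
  have hp : pol s L i = 1 - L * W s i + L ^ 2 / 2 * (s ^ 2 * A ^ 2 + 2 * s ^ 3 * A * B)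
      - L ^ 3 / 6 * (s ^ 3 * A ^ 3 + s ^ 4 * (41 / 100 * (i : ℝ) ^ 7)) := by
    unfold pol W; rw [hAdef, hBdef]
  rw [hp]
  have h1 : L ^ 2 / 2 * (s ^ 2 * A ^ 2 + 2 * s ^ 3 * A * B) ≤ L ^ 2 / 2 * (W s i) ^ 2 :=
    mul_le_mul_of_nonneg_left hsq (by positivity)
  have h2 : L ^ 3 / 6 * (W s i) ^ 3 ≤ L ^ 3 / 6 * (s ^ 3 * A ^ 3 + s ^ 4 * (41 / 100 * (i : ℝ) ^ 7)) :=
    mul_le_mul_of_nonneg_left hcube (by positivity)
  have e1 : (L * W s i) ^ 2 / 2 = L ^ 2 / 2 * (W s i) ^ 2 := by ring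
  have e2 : (L * W s i) ^ 3 / 6 = L ^ 3 / 6 * (W s i) ^ 3 := by ring
  rw [e1, e2]
  linarith

/-- The key logarithmic comparison. -/
theorem log_compare {s lam : ℝ} (hs : 0 ≤ s) (hlam : s + s ^ 2 / 2 + s ^ 3 / 3 + s ^ 4 / 4 ≤ lam)
    (i : ℕ) (hi : (i : ℝ) * s ≤ 1 / 4) : -log (1 - i * s) ≤ lam * (i + W s i) := by
  have hi0 : (0:ℝ) ≤ i := Nat.cast_nonneg i
  have h1 := neg_log_le (w := (i:ℝ) * s) (by positivity) hi
  have hW := W_nonneg hs i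
  have h2 : (s + s ^ 2 / 2 + s ^ 3 / 3 + s ^ 4 / 4) * (i + W s i) ≤ lam * (i + W s i) :=
    mul_le_mul_of_nonneg_right hlam (by positivity)
  refine le_trans (le_trans h1 ?_) h2
  have hA := A_nonneg i
  have hB := B_nonneg i
  set A : ℝ := ((i : ℝ) ^ 2 - i) / 2 with hAdef
  set B : ℝ := (i : ℝ) ^ 3 / 3 - (i : ℝ) ^ 2 / 4 - (i : ℝ) / 12 with hBdef
  have hC : (0:ℝ) ≤ 2 / 5 * (i : ℝ) ^ 4 := by positivity
  set C : ℝ := 2 / 5 * (i : ℝ) ^ 4 with hCdef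
  have e : (s + s ^ 2 / 2 + s ^ 3 / 3 + s ^ 4 / 4) * (i + W s i)
      = ((i:ℝ) * s + ((i:ℝ) * s) ^ 2 / 2 + ((i:ℝ) * s) ^ 3 / 3 + 2 / 5 * ((i:ℝ) * s) ^ 4)
        + (s ^ 4 * (B / 2 + A / 3 + i / 4) + s ^ 5 * (C / 2 + B / 3 + A / 4)
          + s ^ 6 * (C / 3 + B / 4) + s ^ 7 * (C / 4)) := by
    unfold W; rw [hAdef, hBdef, hCdef]; ring
  rw [e]
  have : 0 ≤ (s ^ 4 * (B / 2 + A / 3 + i / 4) + s ^ 5 * (C / 2 + B / 3 + A / 4)
          + s ^ 6 * (C / 3 + B / 4) + s ^ 7 * (C / 4)) := by positivity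
  linarith

/-- Lower bound for the terms. -/
theorem term_ge {s : ℝ} (hs : 0 < s) (n i : ℕ) (hi : (i : ℝ) * s ≤ 1 / 4)
    (hn : (n : ℝ) * (-log (1 - s)) ≤ log 2) (hs1 : s < 1) :
    pol s (log 2) i / 2 ^ i ≤ (1 - i * s) ^ n := by
  have hi0 : (0:ℝ) ≤ i := Nat.cast_nonneg i
  have hpos : 0 < 1 - (i:ℝ) * s := by linarith
  have h1 := log_compare hs.le (neg_log_ge hs.le hs1) i hi
  have hW := W_nonneg hs.le i
  have h2 : (n : ℝ) * (-log (1 - i * s)) ≤ log 2 * (i + W s i) := by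
    calc (n : ℝ) * (-log (1 - i * s)) ≤ n * ((-log (1 - s)) * (i + W s i)) :=
          mul_le_mul_of_nonneg_left h1 (Nat.cast_nonneg n)
      _ = (n * (-log (1 - s))) * (i + W s i) := by ring
      _ ≤ log 2 * (i + W s i) := mul_le_mul_of_nonneg_right hn (by positivity)
  have h3 : (1 - (i:ℝ) * s) ^ n = exp (-((n : ℝ) * (-log (1 - i * s)))) := by
    rw [mul_neg, neg_neg, ← log_pow, exp_log (pow_pos hpos n)]
  rw [h3]
  have h4 : exp (-(log 2 * (i + W s i))) ≤ exp (-((n : ℝ) * (-log (1 - i * s)))) :=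
    exp_le_exp.mpr (by linarith)
  refine le_trans ?_ h4
  have h5 : exp (-(log 2 * (i + W s i))) = exp (-(log 2 * W s i)) / 2 ^ i := by
    have : -(log 2 * ((i:ℝ) + W s i)) = -(log 2 * W s i) - i * log 2 := by ring
    rw [this, exp_sub, exp_nat_mul, exp_log (by norm_num)]
  rw [h5]
  exact div_le_div_of_nonneg_right (pol_le_exp hs.le (log_nonneg (by norm_num)) i hi) (by positivity)

/-- Upper bound for `(1+s)^n`. -/
theorem upper {s : ℝ} (hs : 0 < s) (n : ℕ) (hs1 : s ≤ 1 / 10)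
    (hn : (n : ℝ) * (-log (1 - s)) ≤ log 2) :
    (1 + s) ^ n ≤ 2 - 2 * log 2 * s + (log 2 + (log 2) ^ 2) * s ^ 2 := by
  have hlam := neg_log_ge hs.le (by linarith : s < 1)
  have h1 := log_one_add_le hs.le hs1
  set lam := -log (1 - s)
  have hk : 0 ≤ 1 - s + s ^ 2 / 2 := by nlinarith [sq_nonneg s]
  have h2 : log (1 + s) ≤ (1 - s + s ^ 2 / 2) * lam := by
    have h3 : (1 - s + s ^ 2 / 2) * (s + s ^ 2 / 2 + s ^ 3 / 3 + s ^ 4 / 4)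
        ≤ (1 - s + s ^ 2 / 2) * lam := mul_le_mul_of_nonneg_left hlam hk
    have h4 : (1 - s + s ^ 2 / 2) * (s + s ^ 2 / 2 + s ^ 3 / 3 + s ^ 4 / 4)
        = (s - s ^ 2 / 2 + s ^ 3 / 3) + (s ^ 4 / 6 - s ^ 5 / 12 + s ^ 6 / 8) := by ring
    have h5 : 0 ≤ s ^ 4 / 6 - s ^ 5 / 12 + s ^ 6 / 8 := by
      have : s ^ 5 ≤ s ^ 4 := pow_le_pow_of_le_one hs.le (by linarith) (by norm_num)
      have h6 : 0 ≤ s ^ 6 := by positivity
      have h7 : 0 ≤ s ^ 4 := by positivity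
      linarith
    linarith
  have hpos : 0 < 1 + s := by linarith
  have h3 : (1 + s) ^ n = exp ((n : ℝ) * log (1 + s)) := by
    rw [← log_pow, exp_log (pow_pos hpos n)]
  have h4 : (n : ℝ) * log (1 + s) ≤ log 2 * (1 - s + s ^ 2 / 2) := by
    calc (n : ℝ) * log (1 + s) ≤ n * ((1 - s + s ^ 2 / 2) * lam) :=
          mul_le_mul_of_nonneg_left h2 (Nat.cast_nonneg n)
      _ = (n * lam) * (1 - s + s ^ 2 / 2) := by ring
      _ ≤ log 2 * (1 - s + s ^ 2 / 2) := mul_le_mul_of_nonneg_right hn hk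
  rw [h3]
  refine le_trans (exp_le_exp.mpr h4) ?_
  have h5 : log 2 * (1 - s + s ^ 2 / 2) = log 2 + -(log 2 * (s - s ^ 2 / 2)) := by ring
  rw [h5, exp_add, exp_log (by norm_num)]
  have hL : 0 ≤ log 2 := log_nonneg (by norm_num)
  have hz : 0 ≤ s - s ^ 2 / 2 := by nlinarith
  have h6 := exp_neg_le (mul_nonneg hL hz)
  have h7 : (log 2 * (s - s ^ 2 / 2)) ^ 2 ≤ (log 2) ^ 2 * s ^ 2 := by
    rw [mul_pow]
    apply mul_le_mul_of_nonneg_left _ (by positivity)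
    apply pow_le_pow_left₀ hz
    have : 0 ≤ s ^ 2 / 2 := by positivity
    linarith
  nlinarith

theorem pow_two_ge (I : ℕ) (hI : 50 ≤ I) : 300 * ((I : ℝ) + 1) ^ 4 ≤ 2 ^ I := by
  induction I, hI using Nat.le_induction with
  | base => norm_num
  | succ I hI ih =>
    have hI' : (50 : ℝ) ≤ I := by exact_mod_cast hI
    have h1 : ((I : ℝ) + 1 + 1) ^ 4 ≤ 2 * ((I : ℝ) + 1) ^ 4 := by
      have h2 : ((I : ℝ) + 1 + 1) ≤ (1 + 1 / 51) * ((I : ℝ) + 1) := by linarith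
      calc ((I : ℝ) + 1 + 1) ^ 4 ≤ ((1 + 1 / 51) * ((I : ℝ) + 1)) ^ 4 :=
            pow_le_pow_left₀ (by positivity) h2 4
        _ = (1 + 1 / 51) ^ 4 * ((I : ℝ) + 1) ^ 4 := by rw [mul_pow]
        _ ≤ 2 * ((I : ℝ) + 1) ^ 4 := mul_le_mul_of_nonneg_right (by norm_num) (by positivity)
    have h3 : (2 : ℝ) ^ (I + 1) = 2 * 2 ^ I := by ring
    rw [h3]
    push_cast
    linarith

set_option maxHeartbeats 1000000 in
/-- The error term is small. -/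
theorem error_le {s L x : ℝ} (hs : 0 ≤ s) (hL : 0 ≤ L) (hL1 : L ≤ 7 / 10) (hx : 60 ≤ x)
    (h4 : 4 * x * s ≤ 1) :
    (1 - L * (s * ((x ^ 2 + 3 * x + 4) / 2)
            + s ^ 2 * ((x ^ 3 + 6 * x ^ 2 + 18 * x + 26) / 3 - (x ^ 2 + 4 * x + 6) / 4
              - (x + 2) / 12)
            + s ^ 3 * (2 / 5 * (x ^ 4 + 8 * x ^ 3 + 36 * x ^ 2 + 104 * x + 150)))
          + L ^ 2 / 2 * (s ^ 2 * ((x ^ 4 + 8 * x ^ 3 + 36 * x ^ 2 + 104 * x + 150)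
                - 2 * (x ^ 3 + 6 * x ^ 2 + 18 * x + 26) + (x ^ 2 + 4 * x + 6)) / 4
            + 2 * s ^ 3 * ((4 * (x ^ 5 + 10 * x ^ 4 + 60 * x ^ 3 + 260 * x ^ 2 + 750 * x
                + 1082) - 7 * (x ^ 4 + 8 * x ^ 3 + 36 * x ^ 2 + 104 * x + 150)
                + 2 * (x ^ 3 + 6 * x ^ 2 + 18 * x + 26) + (x ^ 2 + 4 * x + 6)) / 24))
          - L ^ 3 / 6 * (s ^ 3 * (((x ^ 6 + 12 * x ^ 5 + 90 * x ^ 4 + 520 * x ^ 3
                + 2250 * x ^ 2 + 6492 * x + 9366)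
                - 3 * (x ^ 5 + 10 * x ^ 4 + 60 * x ^ 3 + 260 * x ^ 2 + 750 * x + 1082)
                + 3 * (x ^ 4 + 8 * x ^ 3 + 36 * x ^ 2 + 104 * x + 150)
                - (x ^ 3 + 6 * x ^ 2 + 18 * x + 26)) / 8)
            + s ^ 4 * (41 / 100 * (x ^ 7 + 14 * x ^ 6 + 126 * x ^ 5 + 910 * x ^ 4
              + 5250 * x ^ 3 + 22722 * x ^ 2 + 65562 * x + 94586)))) ≤ (x + 1) ^ 2 := by
  have hx0 : 0 ≤ x := by linarith
  have hA : 0 ≤ s * ((x ^ 2 + 3 * x + 4) / 2) := by positivity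
  have hB : 0 ≤ s ^ 2 * ((x ^ 3 + 6 * x ^ 2 + 18 * x + 26) / 3 - (x ^ 2 + 4 * x + 6) / 4
              - (x + 2) / 12) := by
    have : (x ^ 3 + 6 * x ^ 2 + 18 * x + 26) / 3 - (x ^ 2 + 4 * x + 6) / 4 - (x + 2) / 12
      = x ^ 3 / 3 + 7 / 4 * x ^ 2 + 59 / 12 * x + 7 := by ring
    rw [this]; positivity
  have hC : 0 ≤ s ^ 3 * (2 / 5 * (x ^ 4 + 8 * x ^ 3 + 36 * x ^ 2 + 104 * x + 150)) := by positivity
  have hD : 0 ≤ s ^ 3 * (((x ^ 6 + 12 * x ^ 5 + 90 * x ^ 4 + 520 * x ^ 3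
                + 2250 * x ^ 2 + 6492 * x + 9366)
                - 3 * (x ^ 5 + 10 * x ^ 4 + 60 * x ^ 3 + 260 * x ^ 2 + 750 * x + 1082)
                + 3 * (x ^ 4 + 8 * x ^ 3 + 36 * x ^ 2 + 104 * x + 150)
                - (x ^ 3 + 6 * x ^ 2 + 18 * x + 26)) / 8) := by
    have : ((x ^ 6 + 12 * x ^ 5 + 90 * x ^ 4 + 520 * x ^ 3
                + 2250 * x ^ 2 + 6492 * x + 9366)
                - 3 * (x ^ 5 + 10 * x ^ 4 + 60 * x ^ 3 + 260 * x ^ 2 + 750 * x + 1082)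
                + 3 * (x ^ 4 + 8 * x ^ 3 + 36 * x ^ 2 + 104 * x + 150)
                - (x ^ 3 + 6 * x ^ 2 + 18 * x + 26))
      = x ^ 6 + 9 * x ^ 5 + 63 * x ^ 4 + 363 * x ^ 3 + 1572 * x ^ 2 + 4536 * x + 6544 := by ring
    rw [this]; positivity
  have hE : 0 ≤ s ^ 4 * (41 / 100 * (x ^ 7 + 14 * x ^ 6 + 126 * x ^ 5 + 910 * x ^ 4
              + 5250 * x ^ 3 + 22722 * x ^ 2 + 65562 * x + 94586)) := by positivity
  have hL2 : L ^ 2 / 2 ≤ 1 / 4 := by nlinarith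
  -- the two positive terms
  have h3 : s * (x + 3) ≤ 3 / 10 := by nlinarith
  have h5 : s * (x + 4) ≤ 3 / 10 := by nlinarith
  have hF0 : 0 ≤ (x ^ 4 + 8 * x ^ 3 + 36 * x ^ 2 + 104 * x + 150)
                - 2 * (x ^ 3 + 6 * x ^ 2 + 18 * x + 26) + (x ^ 2 + 4 * x + 6) := by
    have : (x ^ 4 + 8 * x ^ 3 + 36 * x ^ 2 + 104 * x + 150)
                - 2 * (x ^ 3 + 6 * x ^ 2 + 18 * x + 26) + (x ^ 2 + 4 * x + 6)
      = x ^ 4 + 6 * x ^ 3 + 25 * x ^ 2 + 72 * x + 104 := by ring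
    rw [this]; positivity
  have hF : s ^ 2 * ((x ^ 4 + 8 * x ^ 3 + 36 * x ^ 2 + 104 * x + 150)
                - 2 * (x ^ 3 + 6 * x ^ 2 + 18 * x + 26) + (x ^ 2 + 4 * x + 6)) / 4
      ≤ (x + 3) ^ 2 / 40 := by
    have h6 : (x ^ 4 + 8 * x ^ 3 + 36 * x ^ 2 + 104 * x + 150)
                - 2 * (x ^ 3 + 6 * x ^ 2 + 18 * x + 26) + (x ^ 2 + 4 * x + 6) ≤ (x + 3) ^ 4 := by
      have : (x + 3) ^ 4 - ((x ^ 4 + 8 * x ^ 3 + 36 * x ^ 2 + 104 * x + 150)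
                - 2 * (x ^ 3 + 6 * x ^ 2 + 18 * x + 26) + (x ^ 2 + 4 * x + 6))
        = 6 * x ^ 3 + 29 * x ^ 2 + 36 * x - 23 := by ring
      have h7 : 0 ≤ 6 * x ^ 3 + 29 * x ^ 2 := by positivity
      linarith
    have h7 : s ^ 2 * (x + 3) ^ 4 ≤ (3 / 10) ^ 2 * (x + 3) ^ 2 := by
      have e : s ^ 2 * (x + 3) ^ 4 = (s * (x + 3)) ^ 2 * (x + 3) ^ 2 := by ring
      rw [e]
      exact mul_le_mul_of_nonneg_right (pow_le_pow_left₀ (by positivity) h3 2) (by positivity)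
    have h8 := mul_le_mul_of_nonneg_left h6 (by positivity : 0 ≤ s ^ 2)
    have h9 : 0 ≤ (x + 3) ^ 2 := by positivity
    linarith
  have hG0 : 0 ≤ (4 * (x ^ 5 + 10 * x ^ 4 + 60 * x ^ 3 + 260 * x ^ 2 + 750 * x
                + 1082) - 7 * (x ^ 4 + 8 * x ^ 3 + 36 * x ^ 2 + 104 * x + 150)
                + 2 * (x ^ 3 + 6 * x ^ 2 + 18 * x + 26) + (x ^ 2 + 4 * x + 6)) := by
    have : (4 * (x ^ 5 + 10 * x ^ 4 + 60 * x ^ 3 + 260 * x ^ 2 + 750 * x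
                + 1082) - 7 * (x ^ 4 + 8 * x ^ 3 + 36 * x ^ 2 + 104 * x + 150)
                + 2 * (x ^ 3 + 6 * x ^ 2 + 18 * x + 26) + (x ^ 2 + 4 * x + 6))
      = 4 * x ^ 5 + 33 * x ^ 4 + 186 * x ^ 3 + 801 * x ^ 2 + 2312 * x + 3336 := by ring
    rw [this]; positivity
  have hG : 2 * s ^ 3 * ((4 * (x ^ 5 + 10 * x ^ 4 + 60 * x ^ 3 + 260 * x ^ 2 + 750 * x
                + 1082) - 7 * (x ^ 4 + 8 * x ^ 3 + 36 * x ^ 2 + 104 * x + 150)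
                + 2 * (x ^ 3 + 6 * x ^ 2 + 18 * x + 26) + (x ^ 2 + 4 * x + 6)) / 24)
      ≤ (x + 4) ^ 2 / 40 := by
    have h6 : (4 * (x ^ 5 + 10 * x ^ 4 + 60 * x ^ 3 + 260 * x ^ 2 + 750 * x
                + 1082) - 7 * (x ^ 4 + 8 * x ^ 3 + 36 * x ^ 2 + 104 * x + 150)
                + 2 * (x ^ 3 + 6 * x ^ 2 + 18 * x + 26) + (x ^ 2 + 4 * x + 6))
        ≤ 4 * (x + 4) ^ 5 := by
      have : 4 * (x + 4) ^ 5 - (4 * (x ^ 5 + 10 * x ^ 4 + 60 * x ^ 3 + 260 * x ^ 2 + 750 * x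
                + 1082) - 7 * (x ^ 4 + 8 * x ^ 3 + 36 * x ^ 2 + 104 * x + 150)
                + 2 * (x ^ 3 + 6 * x ^ 2 + 18 * x + 26) + (x ^ 2 + 4 * x + 6))
        = 47 * x ^ 4 + 454 * x ^ 3 + 1759 * x ^ 2 + 2808 * x + 760 := by ring
      have h7 : 0 ≤ 47 * x ^ 4 + 454 * x ^ 3 + 1759 * x ^ 2 + 2808 * x + 760 := by positivity
      linarith
    have h7 : s ^ 3 * (x + 4) ^ 5 ≤ (3 / 10) ^ 3 * (x + 4) ^ 2 := by
      have e : s ^ 3 * (x + 4) ^ 5 = (s * (x + 4)) ^ 3 * (x + 4) ^ 2 := by ring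
      rw [e]
      exact mul_le_mul_of_nonneg_right (pow_le_pow_left₀ (by positivity) h5 3) (by positivity)
    have h8 := mul_le_mul_of_nonneg_left h6 (by positivity : 0 ≤ s ^ 3)
    have h9 : 0 ≤ (x + 4) ^ 2 := by positivity
    linarith
  set F := s ^ 2 * ((x ^ 4 + 8 * x ^ 3 + 36 * x ^ 2 + 104 * x + 150)
                - 2 * (x ^ 3 + 6 * x ^ 2 + 18 * x + 26) + (x ^ 2 + 4 * x + 6)) / 4 with hFdef
  set G := 2 * s ^ 3 * ((4 * (x ^ 5 + 10 * x ^ 4 + 60 * x ^ 3 + 260 * x ^ 2 + 750 * x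
                + 1082) - 7 * (x ^ 4 + 8 * x ^ 3 + 36 * x ^ 2 + 104 * x + 150)
                + 2 * (x ^ 3 + 6 * x ^ 2 + 18 * x + 26) + (x ^ 2 + 4 * x + 6)) / 24) with hGdef
  have hF1 : 0 ≤ F := by rw [hFdef]; positivity
  have hG1 : 0 ≤ G := by rw [hGdef]; positivity
  have h10 : L ^ 2 / 2 * (F + G) ≤ 1 / 4 * ((x + 3) ^ 2 / 40 + (x + 4) ^ 2 / 40) :=
    mul_le_mul hL2 (by linarith) (by linarith) (by norm_num)
  have h11 : 0 ≤ L * (s * ((x ^ 2 + 3 * x + 4) / 2)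
            + s ^ 2 * ((x ^ 3 + 6 * x ^ 2 + 18 * x + 26) / 3 - (x ^ 2 + 4 * x + 6) / 4
              - (x + 2) / 12)
            + s ^ 3 * (2 / 5 * (x ^ 4 + 8 * x ^ 3 + 36 * x ^ 2 + 104 * x + 150))) := by
    apply mul_nonneg hL; linarith
  have h12 : 0 ≤ L ^ 3 / 6 * (s ^ 3 * (((x ^ 6 + 12 * x ^ 5 + 90 * x ^ 4 + 520 * x ^ 3
                + 2250 * x ^ 2 + 6492 * x + 9366)
                - 3 * (x ^ 5 + 10 * x ^ 4 + 60 * x ^ 3 + 260 * x ^ 2 + 750 * x + 1082)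
                + 3 * (x ^ 4 + 8 * x ^ 3 + 36 * x ^ 2 + 104 * x + 150)
                - (x ^ 3 + 6 * x ^ 2 + 18 * x + 26)) / 8)
            + s ^ 4 * (41 / 100 * (x ^ 7 + 14 * x ^ 6 + 126 * x ^ 5 + 910 * x ^ 4
              + 5250 * x ^ 3 + 22722 * x ^ 2 + 65562 * x + 94586))) := by
    apply mul_nonneg (by positivity); linarith
  nlinarith

set_option maxHeartbeats 1000000 in
/-- The real form of the inequality. -/
theorem real_ineq (m n : ℕ) (hm : 240 ≤ m) (h : (1 - 1 / (m : ℝ)) ^ n > 1 / 2) :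
    (1 + 1 / (m : ℝ)) ^ n < ∑ i ∈ range m, (1 - (i : ℝ) * (1 / (m : ℝ))) ^ n := by
  have hm' : (240 : ℝ) ≤ m := by exact_mod_cast hm
  have hmpos : (0 : ℝ) < m := by linarith
  set s : ℝ := 1 / (m : ℝ) with hs
  have hs0 : 0 < s := by rw [hs]; positivity
  have hs1 : s ≤ 1 / 240 := by rw [hs]; exact one_div_le_one_div_of_le (by norm_num) hm'
  have hlam : (n : ℝ) * (-log (1 - s)) ≤ log 2 := by
    have hp : 0 < 1 - s := by linarith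
    have h1 : log (1 / 2) < log ((1 - s) ^ n) := log_lt_log (by norm_num) h
    rw [log_pow, one_div, log_inv] at h1
    linarith
  have hup := upper hs0 n (by linarith) hlam
  -- the number of terms used
  obtain ⟨I, hI⟩ : ∃ I, I = m / 4 := ⟨_, rfl⟩
  have hI1 : 60 ≤ I := by omega
  have hI2 : 4 * I ≤ m := by omega
  have hI3 : m < 4 * (I + 1) := by omega
  have hx : (60 : ℝ) ≤ I := by exact_mod_cast hI1
  have h4 : 4 * (I : ℝ) * s ≤ 1 := by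
    rw [hs, mul_one_div, div_le_one hmpos]; exact_mod_cast hI2
  have h5 : 1 ≤ 4 * ((I : ℝ) + 1) * s := by
    rw [hs, mul_one_div, one_le_div hmpos]; exact_mod_cast hI3.le
  have hsub : ∑ i ∈ range (I + 1), (1 - (i : ℝ) * s) ^ n ≤ ∑ i ∈ range m, (1 - (i : ℝ) * s) ^ n := by
    apply sum_le_sum_of_subset_of_nonneg
    · intro i hi; rw [mem_range] at hi ⊢; omega
    · intro i hi _
      rw [mem_range] at hi
      apply pow_nonneg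
      have : (i : ℝ) ≤ m := by exact_mod_cast hi.le
      have h6 : (i : ℝ) * s ≤ m * s := mul_le_mul_of_nonneg_right this hs0.le
      have h7 : (m : ℝ) * s = 1 := by rw [hs]; field_simp
      linarith
  have hterm : ∑ i ∈ range (I + 1), pol s (log 2) i / 2 ^ i
      ≤ ∑ i ∈ range (I + 1), (1 - (i : ℝ) * s) ^ n := by
    apply sum_le_sum
    intro i hi
    rw [mem_range] at hi
    have h6 : (i : ℝ) ≤ I := by exact_mod_cast (by omega : i ≤ I)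
    have h7 : (i : ℝ) * s ≤ I * s := mul_le_mul_of_nonneg_right h6 hs0.le
    exact term_ge hs0 n i (by linarith) hlam (by linarith)
  rw [sum_pol] at hterm
  have hL0 : 0 ≤ log 2 := log_nonneg (by norm_num)
  have hL1 : log 2 < 0.6931471808 := log_two_lt_d9
  have hL2 : 0.6931471803 < log 2 := log_two_gt_d9
  have herr := error_le hs0.le hL0 (by norm_num at hL1 ⊢; linarith) hx h4
  set L := log 2 with hLdef
  set E := (1 - L * (s * (((I : ℝ) ^ 2 + 3 * I + 4) / 2)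
            + s ^ 2 * (((I : ℝ) ^ 3 + 6 * I ^ 2 + 18 * I + 26) / 3 - (I ^ 2 + 4 * I + 6) / 4
              - (I + 2) / 12)
            + s ^ 3 * (2 / 5 * ((I : ℝ) ^ 4 + 8 * I ^ 3 + 36 * I ^ 2 + 104 * I + 150)))
          + L ^ 2 / 2 * (s ^ 2 * (((I : ℝ) ^ 4 + 8 * I ^ 3 + 36 * I ^ 2 + 104 * I + 150)
                - 2 * (I ^ 3 + 6 * I ^ 2 + 18 * I + 26) + (I ^ 2 + 4 * I + 6)) / 4
            + 2 * s ^ 3 * ((4 * ((I : ℝ) ^ 5 + 10 * I ^ 4 + 60 * I ^ 3 + 260 * I ^ 2 + 750 * I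
                + 1082) - 7 * (I ^ 4 + 8 * I ^ 3 + 36 * I ^ 2 + 104 * I + 150)
                + 2 * (I ^ 3 + 6 * I ^ 2 + 18 * I + 26) + (I ^ 2 + 4 * I + 6)) / 24))
          - L ^ 3 / 6 * (s ^ 3 * ((((I : ℝ) ^ 6 + 12 * I ^ 5 + 90 * I ^ 4 + 520 * I ^ 3
                + 2250 * I ^ 2 + 6492 * I + 9366)
                - 3 * (I ^ 5 + 10 * I ^ 4 + 60 * I ^ 3 + 260 * I ^ 2 + 750 * I + 1082)
                + 3 * (I ^ 4 + 8 * I ^ 3 + 36 * I ^ 2 + 104 * I + 150)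
                - (I ^ 3 + 6 * I ^ 2 + 18 * I + 26)) / 8)
            + s ^ 4 * (41 / 100 * ((I : ℝ) ^ 7 + 14 * I ^ 6 + 126 * I ^ 5 + 910 * I ^ 4
              + 5250 * I ^ 3 + 22722 * I ^ 2 + 65562 * I + 94586)))) with hEdef
  -- the error after dividing by `2 ^ I`
  have hE2 : E / 2 ^ I ≤ 16 / 300 * s ^ 2 := by
    have h6 := pow_two_ge I (by omega)
    have h7 : E / 2 ^ I ≤ ((I : ℝ) + 1) ^ 2 / (300 * ((I : ℝ) + 1) ^ 4) := by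
      apply div_le_div₀ (by positivity) herr (by positivity) h6
    have h8 : ((I : ℝ) + 1) ^ 2 / (300 * ((I : ℝ) + 1) ^ 4) = 1 / (300 * ((I : ℝ) + 1) ^ 2) := by
      have : ((I : ℝ) + 1) ≠ 0 := by positivity
      field_simp
    rw [h8] at h7
    refine le_trans h7 ?_
    rw [div_le_iff₀ (by positivity)]
    have h9 : 1 ≤ (4 * ((I : ℝ) + 1) * s) ^ 2 := one_le_pow₀ h5
    calc (1 : ℝ) ≤ (4 * ((I : ℝ) + 1) * s) ^ 2 := h9
      _ = 16 / 300 * s ^ 2 * (300 * ((I : ℝ) + 1) ^ 2) := by ring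
  -- numerical constants
  have hLa : 0.6931 < L := by linarith
  have hLb : L < 0.6932 := by linarith
  have hLsq' : 0.6931 ^ 2 ≤ L ^ 2 := pow_le_pow_left₀ (by norm_num) hLa.le 2
  have hLcu : L ^ 3 ≤ 0.6932 ^ 3 := pow_le_pow_left₀ hL0 hLb.le 3
  have c1 : 0.219 ≤ 12 * L ^ 2 - 8 * L := by
    norm_num at hLsq' hLb ⊢
    linarith
  have c2 : -20.3 ≤ -60 * L + 139 * L ^ 2 - 818 / 6 * L ^ 3 := by
    norm_num at hLsq' hLcu hLb ⊢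
    linarith
  have c3 : L ^ 3 / 6 * (41 / 100) * 94586 ≤ 2160 := by
    norm_num at hLcu ⊢
    linarith
  have hs2 : 0 < s ^ 2 := by positivity
  have d1 : -20.3 * s ^ 3 ≤ (-60 * L + 139 * L ^ 2 - 818 / 6 * L ^ 3) * s ^ 3 :=
    mul_le_mul_of_nonneg_right c2 (by positivity)
  have d2 : L ^ 3 / 6 * (41 / 100) * 94586 * s ^ 4 ≤ 2160 * s ^ 4 :=
    mul_le_mul_of_nonneg_right c3 (by positivity)
  have d3 : 0.219 * s ^ 2 ≤ (12 * L ^ 2 - 8 * L) * s ^ 2 :=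
    mul_le_mul_of_nonneg_right c1 hs2.le
  have d4 : s ^ 3 ≤ 1 / 240 * s ^ 2 := by
    have : s ^ 3 = s * s ^ 2 := by ring
    rw [this]; exact mul_le_mul_of_nonneg_right hs1 hs2.le
  have d5 : s ^ 4 ≤ 1 / 57600 * s ^ 2 := by
    have : s ^ 4 = s ^ 2 * s ^ 2 := by ring
    rw [this]
    apply mul_le_mul_of_nonneg_right _ hs2.le
    calc s ^ 2 ≤ (1 / 240) ^ 2 := pow_le_pow_left₀ hs0.le hs1 2
      _ = 1 / 57600 := by norm_num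
  norm_num at d1 d2 d3 d4 d5 hE2
  linarith

end Q272.Erd
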